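import Mathlib
import Pool.Agent.Helper450.Kneser

/-!
# Iterated sumsets in cyclic groups and in the natural numbers
-/

set_option autoImplicit false

open Finset
open scoped Pointwise

namespace Pool.Agent.Q110.GW

open Pool.Agent.Helper450.Kneser

/-- the iterated sumset -/
def it {G : Type} [AddCommGroup G] [DecidableEq G] (T : Finset G) : ℕ → Finset G
  | 0 => T
  | (j + 1) => it T j + T

theorem it_nonempty {G : Type} [AddCommGroup G] [DecidableEq G] {T : Finset G} (h : T.Nonempty)
    (j : ℕ) : (it T j).Nonempty := by
  induction j with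
  | zero => exact h
  | succ j ih => exact ih.add h

/-- Growth of iterated sumsets of a set containing `0` and a generator. -/
theorem growth {l : ℕ} [NeZero l] (T : Finset (ZMod l)) (h0 : (0 : ZMod l) ∈ T) (h1 : (1 : ZMod l) ∈ T)
    (j : ℕ) : it T j = univ ∨ (j + 2) * T.card ≤ 2 * (it T j).card := by
  induction j with
  | zero => right; simp [it]
  | succ j ih =>
    by_cases hu : it T (j + 1) = univ
    · left; exact hu
    right
    have hT : T.Nonempty := ⟨0, h0⟩
    have hk := kneser' (it T j) T (it_nonempty hT j) hT
    set H := stab (it T j + T) with hH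
    have h1H : (1 : ZMod l) ∉ H := by
      intro hc
      apply hu
      have hall : ∀ n : ℕ, (n : ZMod l) ∈ H := by
        intro n
        have := H.nsmul_mem hc n
        simpa using this
      obtain ⟨x, hx⟩ := (it_nonempty hT j).add hT
      ext y
      simp only [mem_univ, iff_true]
      have h3 : (((y - x).val : ℕ) : ZMod l) ∈ H := hall _
      rw [ZMod.natCast_zmod_val] at h3
      have h4 := stab_add h3 hx
      have : x + (y - x) = y := by abel
      rw [this] at h4
      exact h4
    -- T + H contains two cosets
    have h2 : 2 * (fs H).card ≤ (T + fs H).card := by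
      have hsub : fs H ∪ (fs H).image (fun x => 1 + x) ⊆ T + fs H := by
        intro x hx
        rcases mem_union.1 hx with hx | hx
        · have := add_mem_add h0 hx
          rwa [zero_add] at this
        · obtain ⟨y, hy, rfl⟩ := mem_image.1 hx
          exact add_mem_add h1 hy
      have hdis : Disjoint (fs H) ((fs H).image (fun x => 1 + x)) := by
        rw [disjoint_left]
        intro x hx hx'
        obtain ⟨y, hy, rfl⟩ := mem_image.1 hx'
        have a := mem_fs.1 hx
        have b := mem_fs.1 hy
        apply h1H
        have := H.sub_mem a b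
        simpa using this
      have hc := card_le_card hsub
      rw [card_union_of_disjoint hdis, card_image_of_injective _ (add_right_injective 1)] at hc
      omega
    have h3 : T.card ≤ (T + fs H).card := card_le_card (by
      intro x hx
      have := add_mem_add hx (mem_fs.mpr H.zero_mem)
      rwa [add_zero] at this)
    have h4 : (it T j).card ≤ (it T j + fs H).card := card_le_card (by
      intro x hx
      have := add_mem_add hx (mem_fs.mpr H.zero_mem)
      rwa [add_zero] at this)
    have h5 : it T (j + 1) = it T j + T := rfl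
    rcases ih with ih | ih
    · exfalso
      apply hu
      rw [h5, ih]
      ext y
      simp only [mem_univ, iff_true]
      have := add_mem_add (mem_univ y) h0
      rwa [add_zero] at this
    · rw [h5]
      have e : (j + 1 + 2) * T.card = (j + 2) * T.card + T.card := by ring
      rw [e]
      omega

/-- A relation `D r n` (`n` is a sum of `r` elements of a set), additive, with `D 1 b` for `b` in `B`. -/
theorem interval (D : ℕ → ℕ → Prop) (hadd : ∀ r r' n n', D r n → D r' n' → D (r + r') (n + n'))
    (B : Finset ℕ) (hB : ∀ b ∈ B, D 1 b) (h0 : 0 ∈ B) (h1 : 1 ∈ B) (l : ℕ) (hl : l ∈ B) (hl2 : 2 ≤ l)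
    (hBl : ∀ b ∈ B, b ≤ l) (j : ℕ) (hj : 2 * l ≤ (j + 2) * ((B.filter (· < l)).card)) (m : ℕ)
    (hm1 : (j + 1) * l ≤ m) (hm2 : m ≤ (j + 2) * l) : D (2 * j + 3) m := by
  haveI : NeZero l := ⟨by omega⟩
  set T : Finset (ZMod l) := B.image (fun b : ℕ => (b : ZMod l)) with hT
  have hT0 : (0 : ZMod l) ∈ T := mem_image.2 ⟨0, h0, by simp⟩
  have hT1 : (1 : ZMod l) ∈ T := mem_image.2 ⟨1, h1, by simp⟩
  have hcard : (B.filter (· < l)).card ≤ T.card := by
    rw [← card_image_of_injOn (s := B.filter (· < l)) (f := fun b : ℕ => (b : ZMod l))]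
    · exact card_le_card (image_subset_image (filter_subset _ _))
    · intro a ha b hb hab
      have ha' := (mem_filter.1 ha).2
      have hb' := (mem_filter.1 hb).2
      have := congrArg ZMod.val hab
      simp only [ZMod.val_natCast] at this
      rwa [Nat.mod_eq_of_lt ha', Nat.mod_eq_of_lt hb'] at this
  have hrep : ∀ i : ℕ, ∀ x ∈ it T i, ∃ n : ℕ, n ≤ (i + 1) * l ∧ (n : ZMod l) = x ∧ D (i + 1) n := by
    intro i
    induction i with
    | zero =>
      intro x hx
      obtain ⟨b, hb, rfl⟩ := mem_image.1 hx
      exact ⟨b, by simpa using hBl b hb, rfl, hB b hb⟩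
    | succ i ih =>
      intro x hx
      obtain ⟨y, hy, z, hz, rfl⟩ := mem_add.1 hx
      obtain ⟨n, hn1, hn2, hn3⟩ := ih y hy
      obtain ⟨b, hb, rfl⟩ := mem_image.1 hz
      refine ⟨n + b, ?_, by push_cast; rw [hn2], hadd _ _ _ _ hn3 (hB b hb)⟩
      have := hBl b hb
      calc n + b ≤ (i + 1) * l + l := by omega
        _ = (i + 1 + 1) * l := by ring
  have huniv : it T j = univ := by
    rcases growth T hT0 hT1 j with h | h
    · exact h
    · apply eq_univ_of_card
      rw [ZMod.card]
      have h2 : (it T j).card ≤ l := by
        have := card_le_univ (it T j)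
        rwa [ZMod.card] at this
      have h3 : (j + 2) * (B.filter (· < l)).card ≤ (j + 2) * T.card := Nat.mul_le_mul_left _ hcard
      omega
  obtain ⟨n, hn1, hn2, hn3⟩ := hrep j (m : ZMod l) (by rw [huniv]; exact mem_univ _)
  have hnm : n ≤ m := hn1.trans hm1
  have hdvd : l ∣ m - n := by
    have h4 : (n : ZMod l) = (m : ZMod l) := hn2
    rw [ZMod.natCast_eq_natCast_iff] at h4
    exact (Nat.modEq_iff_dvd' hnm).1 h4
  obtain ⟨i, hi⟩ := hdvd
  have hi2 : i ≤ j + 2 := by
    by_contra hc
    push Not at hc
    have : l * (j + 3) ≤ l * i := Nat.mul_le_mul_left _ hc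
    have h5 : l * (j + 3) = (j + 2) * l + l := by ring
    omega
  have hrun : ∀ i : ℕ, D (j + 1 + i) (n + l * i) := by
    intro i
    induction i with
    | zero => simpa using hn3
    | succ i ih =>
      have := hadd _ _ _ _ ih (hB l hl)
      have e : n + l * i + l = n + l * (i + 1) := by ring
      rw [e] at this
      exact this
  have hpad : ∀ i r n', D r n' → D (r + i) n' := by
    intro i r n' h
    induction i with
    | zero => simpa using h
    | succ i ih =>
      have := hadd _ _ _ _ ih (hB 0 h0)
      simpa [add_assoc] using this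
  have h6 := hpad (j + 2 - i) _ _ (hrun i)
  have e1 : j + 1 + i + (j + 2 - i) = 2 * j + 3 := by omega
  have e2 : n + l * i = m := by omega
  rw [e1, e2] at h6
  exact h6

end Pool.Agent.Q110.GW
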