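import Mathlib

/-!
# Sums of `k`-th powers: greedy growth of complete intervals
-/

set_option autoImplicit false

open Finset

namespace Pool.Agent.Q110.GW

/-- `n` is a sum of `s` `k`-th powers of natural numbers (zero allowed) -/
def IsSum (k s n : ℕ) : Prop := ∃ x : Fin s → ℕ, ∑ i, x i ^ k = n

theorem IsSum.add {k s t n m : ℕ} (h : IsSum k s n) (h' : IsSum k t m) : IsSum k (s + t) (n + m) := by
  obtain ⟨x, rfl⟩ := h
  obtain ⟨y, rfl⟩ := h'
  refine ⟨Fin.append x y, ?_⟩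
  rw [Fin.sum_univ_add]
  simp

theorem isSum_zero {k : ℕ} (hk : k ≠ 0) (s : ℕ) : IsSum k s 0 :=
  ⟨fun _ => 0, by simp [hk]⟩

theorem isSum_pow (k x : ℕ) : IsSum k 1 (x ^ k) := ⟨fun _ => x, by simp⟩

theorem IsSum.mono {k s t n : ℕ} (hk : k ≠ 0) (h : IsSum k s n) (hst : s ≤ t) : IsSum k t n := by
  obtain ⟨d, rfl⟩ := Nat.exists_eq_add_of_le hst
  simpa using h.add (isSum_zero hk d)

/-- all integers from `w` to `w + L` are sums of `r` `k`-th powers -/
def Cover (k r w L : ℕ) : Prop := ∀ n, w ≤ n → n ≤ w + L → IsSum k r n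

theorem grow {k r w L x : ℕ} (hk : k ≠ 0) (h : Cover k r w L)
    (hx : ∀ y < x, (y + 1) ^ k ≤ y ^ k + L + 1) : Cover k (r + 1) w (x ^ k) := by
  intro n hn1 hn2
  obtain ⟨d, rfl⟩ := Nat.exists_eq_add_of_le hn1
  have hd : d ≤ x ^ k := by omega
  set y := Nat.findGreatest (fun y => y ^ k ≤ d) x with hy
  have hy1 : y ^ k ≤ d := by
    have := Nat.findGreatest_spec (P := fun y => y ^ k ≤ d) (Nat.zero_le x) (by simp [hk])
    exact this
  have hy2 : y ≤ x := Nat.findGreatest_le x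
  have hdy : d - y ^ k ≤ L := by
    rcases Nat.lt_or_ge y x with hlt | hge
    · have h1 : ¬ ((y + 1) ^ k ≤ d) := by
        have := Nat.findGreatest_is_greatest (P := fun y => y ^ k ≤ d) (n := x) (k := y + 1)
          (by omega) (by omega)
        exact this
      have h2 := hx y hlt
      omega
    · have : y = x := le_antisymm hy2 hge
      rw [this] at hy1 ⊢
      omega
  have h3 := (h (w + (d - y ^ k)) (by omega) (by omega)).add (isSum_pow k y)
  have e : w + (d - y ^ k) + y ^ k = w + d := by omega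
  rwa [e] at h3

theorem diff_le (k y : ℕ) : (y + 1) ^ (k + 1) ≤ y ^ (k + 1) + (k + 1) * (y + 1) ^ k := by
  induction k with
  | zero => simp
  | succ k ih =>
    calc (y + 1) ^ (k + 1 + 1) = (y + 1) ^ (k + 1) * y + (y + 1) ^ (k + 1) := by ring
      _ ≤ (y ^ (k + 1) + (k + 1) * (y + 1) ^ k) * y + (y + 1) ^ (k + 1) := by gcongr
      _ = y ^ (k + 1 + 1) + (k + 1) * ((y + 1) ^ k * y) + (y + 1) ^ (k + 1) := by ring
      _ ≤ y ^ (k + 1 + 1) + (k + 1) * ((y + 1) ^ k * (y + 1)) + (y + 1) ^ (k + 1) := by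
        gcongr; omega
      _ = y ^ (k + 1 + 1) + (k + 1 + 1) * (y + 1) ^ (k + 1) := by ring

theorem step_le {k L x : ℕ} (hk : 2 ≤ k) (hx : k * x ^ (k - 1) ≤ L) :
    ∀ y < x, (y + 1) ^ k ≤ y ^ k + L + 1 := by
  intro y hy
  obtain ⟨m, rfl⟩ : ∃ m, k = m + 1 := ⟨k - 1, by omega⟩
  have h1 := diff_le m y
  have h2 : (y + 1) ^ m ≤ x ^ m := Nat.pow_le_pow_left hy m
  have h3 : (m + 1) * (y + 1) ^ m ≤ (m + 1) * x ^ m := Nat.mul_le_mul_left _ h2
  simp only [Nat.add_sub_cancel] at hx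
  omega

theorem exists_root (k : ℕ) (hk : 2 ≤ k) : ∃ L₀ : ℕ, 2 ≤ L₀ ∧ ∀ L ≥ L₀, ∃ x : ℕ,
    k * x ^ (k - 1) ≤ L ∧ L ^ (2 * k + 1) ≤ (x ^ k) ^ (2 * k) := by
  set c : ℕ := (k * 2 ^ (k - 1)) ^ (2 * k + 1) with hc
  have hc1 : 1 ≤ c := Nat.one_le_pow _ _ (Nat.mul_pos (by omega) (by positivity))
  refine ⟨k * c ^ (k - 1), ?_, ?_⟩
  · have : 1 ≤ c ^ (k - 1) := Nat.one_le_pow _ _ hc1
    nlinarith
  intro L hL
  set x := Nat.findGreatest (fun x => k * x ^ (k - 1) ≤ L) L with hx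
  have hle : ∀ z : ℕ, z ≤ k * z ^ (k - 1) := by
    intro z
    rcases Nat.eq_zero_or_pos z with rfl | hz
    · simp
    · calc z = z ^ 1 := (pow_one z).symm
        _ ≤ z ^ (k - 1) := Nat.pow_le_pow_right hz (by omega)
        _ ≤ k * z ^ (k - 1) := Nat.le_mul_of_pos_left _ (by omega)
  have hcx : c ≤ x := Nat.le_findGreatest ((hle c).trans hL) hL
  have hx1 : k * x ^ (k - 1) ≤ L := by
    have := Nat.findGreatest_spec (P := fun x => k * x ^ (k - 1) ≤ L) ((hle c).trans hL) hL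
    exact this
  refine ⟨x, hx1, ?_⟩
  have hx2 : L < k * (x + 1) ^ (k - 1) := by
    by_contra hcon
    push Not at hcon
    have h1 : x + 1 ≤ L := (hle _).trans hcon
    have := Nat.le_findGreatest (P := fun x => k * x ^ (k - 1) ≤ L) h1 hcon
    omega
  have hx0 : 1 ≤ x := hc1.trans hcx
  have h2 : L ≤ k * 2 ^ (k - 1) * x ^ (k - 1) := by
    calc L ≤ k * (x + 1) ^ (k - 1) := hx2.le
      _ ≤ k * (2 * x) ^ (k - 1) := by gcongr; omega
      _ = k * 2 ^ (k - 1) * x ^ (k - 1) := by rw [mul_pow]; ring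
  calc L ^ (2 * k + 1) ≤ (k * 2 ^ (k - 1) * x ^ (k - 1)) ^ (2 * k + 1) := Nat.pow_le_pow_left h2 _
    _ = c * x ^ ((k - 1) * (2 * k + 1)) := by rw [mul_pow, ← hc, ← pow_mul]
    _ ≤ x * x ^ ((k - 1) * (2 * k + 1)) := by gcongr
    _ = x ^ ((k - 1) * (2 * k + 1) + 1) := by rw [pow_succ]; ring
    _ ≤ x ^ (k * (2 * k)) := by
      apply Nat.pow_le_pow_right hx0
      obtain ⟨m, rfl⟩ : ∃ m, k = m + 1 := ⟨k - 1, by omega⟩
      simp only [Nat.add_sub_cancel]
      nlinarith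
    _ = (x ^ k) ^ (2 * k) := by rw [pow_mul]

theorem iterate (k : ℕ) (hk : 2 ≤ k) : ∃ L₀ : ℕ, 2 ≤ L₀ ∧ ∀ r w L : ℕ, L₀ ≤ L → Cover k r w L →
    ∀ t : ℕ, ∃ L' : ℕ, L ≤ L' ∧ Cover k (r + t) w L' ∧
      (1 + 1 / (2 * k : ℝ)) ^ t * Real.log L ≤ Real.log L' := by
  obtain ⟨L₀, h0, hroot⟩ := exists_root k hk
  refine ⟨L₀, h0, fun r w L hL hC t => ?_⟩
  induction t with
  | zero => exact ⟨L, le_rfl, hC, by simp⟩
  | succ t ih =>
    obtain ⟨L', h1, h2, h3⟩ := ih
    obtain ⟨x, hx1, hx2⟩ := hroot L' (hL.trans h1)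
    have hkR : (0 : ℝ) < 2 * k := by positivity
    have hL'1 : (1 : ℝ) < L' := by
      have : 2 ≤ L' := h0.trans (hL.trans h1)
      exact_mod_cast this
    have hlog : (2 * k + 1 : ℝ) * Real.log L' ≤ 2 * k * Real.log ((x ^ k : ℕ) : ℝ) := by
      have h5 : ((L' : ℝ)) ^ (2 * k + 1) ≤ (((x ^ k : ℕ) : ℝ)) ^ (2 * k) := by exact_mod_cast hx2
      have h6 := Real.log_le_log (by positivity) h5
      rw [Real.log_pow, Real.log_pow] at h6
      push_cast at h6 ⊢
      linarith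
    have hlogpos : 0 < Real.log L' := Real.log_pos hL'1
    have hlog2 : (1 + 1 / (2 * k : ℝ)) * Real.log L' ≤ Real.log ((x ^ k : ℕ) : ℝ) := by
      have e : (1 + 1 / (2 * k : ℝ)) * Real.log L' = ((2 * k + 1 : ℝ) * Real.log L') / (2 * k) := by
        field_simp
      rw [e, div_le_iff₀ hkR]
      linarith
    have hL'x : L' ≤ x ^ k := by
      by_contra hcon
      push Not at hcon
      have hxpos : (0 : ℝ) < ((x ^ k : ℕ) : ℝ) := by
        have : 0 < x ^ k := by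
          rcases Nat.eq_zero_or_pos (x ^ k) with h | h
          · rw [h] at hx2
            rw [zero_pow (by omega)] at hx2
            have : 0 < L' ^ (2 * k + 1) := by
              have : 2 ≤ L' := h0.trans (hL.trans h1)
              positivity
            omega
          · exact h
        exact_mod_cast this
      have h7 := Real.log_lt_log hxpos (show ((x ^ k : ℕ) : ℝ) < L' by exact_mod_cast hcon)
      have : (1 : ℝ) * Real.log L' ≤ (1 + 1 / (2 * k : ℝ)) * Real.log L' := by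
        apply mul_le_mul_of_nonneg_right _ hlogpos.le
        have : (0 : ℝ) < 1 / (2 * k) := by positivity
        linarith
      linarith
    refine ⟨x ^ k, h1.trans hL'x, ?_, ?_⟩
    · have := grow (by omega) h2 (step_le hk hx1)
      rwa [add_assoc] at this
    · calc (1 + 1 / (2 * k : ℝ)) ^ (t + 1) * Real.log L
          = (1 + 1 / (2 * k : ℝ)) * ((1 + 1 / (2 * k : ℝ)) ^ t * Real.log L) := by ring
        _ ≤ (1 + 1 / (2 * k : ℝ)) * Real.log L' := by
          apply mul_le_mul_of_nonneg_left h3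
          positivity
        _ ≤ _ := hlog2

/-- A complete interval of length `L` grows to length `L ^ (2 ^ c)` with `2 k c` further powers. -/
theorem power (k : ℕ) (hk : 2 ≤ k) : ∃ L₀ : ℕ, 2 ≤ L₀ ∧ ∀ r w L : ℕ, L₀ ≤ L → Cover k r w L →
    ∀ c : ℕ, Cover k (r + 2 * k * c) w (L ^ 2 ^ c) := by
  obtain ⟨L₀, h0, hit⟩ := iterate k hk
  refine ⟨L₀, h0, fun r w L hL hC c => ?_⟩
  obtain ⟨L', h1, h2, h3⟩ := hit r w L hL hC (2 * k * c)
  have hL1 : (1 : ℝ) < L := by
    have : 2 ≤ L := h0.trans hL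
    exact_mod_cast this
  have h4 : (2 : ℝ) ^ c ≤ (1 + 1 / (2 * k : ℝ)) ^ (2 * k * c) := by
    rw [pow_mul]
    apply pow_le_pow_left₀ (by norm_num)
    have := one_add_mul_le_pow (a := 1 / (2 * k : ℝ)) (by
      have : (0 : ℝ) ≤ 1 / (2 * k) := by positivity
      linarith) (2 * k)
    have e : (1 : ℝ) + ((2 * k : ℕ) : ℝ) * (1 / (2 * k)) = 2 := by
      push_cast
      have : (k : ℝ) ≠ 0 := by
        have : (0 : ℝ) < k := by exact_mod_cast (by omega : 0 < k)
        exact this.ne'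
      field_simp
      norm_num
    rw [e] at this
    exact this
  have h5 : Real.log ((L : ℝ) ^ 2 ^ c) ≤ Real.log L' := by
    rw [Real.log_pow]
    push_cast
    exact (mul_le_mul_of_nonneg_right h4 (Real.log_pos hL1).le).trans h3
  have h6 : L ^ 2 ^ c ≤ L' := by
    have hL'pos : (0 : ℝ) < L' := by
      have : 0 < L' := by omega
      exact_mod_cast this
    have := (Real.log_le_log_iff (by positivity) hL'pos).1 h5
    exact_mod_cast this
  intro n hn1 hn2
  exact h2 n hn1 (by omega)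

end Pool.Agent.Q110.GW
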