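import Mathlib
import Pool.Agent.Q110.GW.Cyc
import Pool.Agent.Q110.GW.Grow

/-!
# Dense intervals of sums of `k`-th powers
-/

set_option autoImplicit false

open Finset

namespace Pool.Agent.Q110.GW

open Classical in
/-- the number of the integers in `[u, u + M)` that are sums of `s` `k`-th powers -/
noncomputable def count (k s u M : ℕ) : ℕ := ((Ico u (u + M)).filter (fun n => IsSum k s n)).card

/-- **One dense interval.** If the interval `[u, u + M)` contains `a ≥ 2` sums of `s` `k`-th powers and
`2 M ≤ (j + 2) a`, there is a complete interval of sums of `(2 j + 3) (s + 1)` `k`-th powers of length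
`l ≥ a` and beginning at most at `(3 j + 5) (u + M)`. -/
theorem complete (k s u M j : ℕ) (ha : 2 ≤ count k s u M) (hj : 2 * M ≤ (j + 2) * count k s u M) :
    ∃ w l : ℕ, count k s u M ≤ l ∧ w ≤ (3 * j + 4) * (u + M) ∧ Cover k ((2 * j + 3) * (s + 1)) w l := by
  classical
  set A : Finset ℕ := (Ico u (u + M)).filter (fun n => IsSum k s n) with hA
  have hcount : count k s u M = A.card := by
    unfold count
    rw [hA]
  rw [hcount] at ha hj ⊢
  have hne : A.Nonempty := card_pos.1 (by omega)
  set a0 := A.min' hne with ha0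
  set a1 := A.max' hne with ha1
  have hA0 : a0 ∈ A := A.min'_mem hne
  have hA1 : a1 ∈ A := A.max'_mem hne
  have hmin : ∀ a ∈ A, a0 ≤ a := fun a h => A.min'_le a h
  have hmax : ∀ a ∈ A, a ≤ a1 := fun a h => A.le_max' a h
  have hu0 : u ≤ a0 := (mem_Ico.1 (mem_filter.1 hA0).1).1
  have hu1 : a1 < u + M := (mem_Ico.1 (mem_filter.1 hA1).1).2
  have h01 : a0 ≤ a1 := hmin a1 hA1
  set l := a1 - a0 + 1 with hl
  set A' : Finset ℕ := A.image (fun a => a - a0) with hA'
  have hcA' : A'.card = A.card := by
    rw [hA']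
    apply card_image_of_injOn
    intro a ha b hb hab
    have h1 := hmin a ha
    have h2 := hmin b hb
    simp only at hab
    omega
  have hA'l : ∀ b ∈ A', b < l := by
    intro b hb
    obtain ⟨a, ha, rfl⟩ := mem_image.1 hb
    have h1 := hmin a ha
    have h2 := hmax a ha
    omega
  have hcl : A.card ≤ l := by
    rw [← hcA']
    calc A'.card ≤ (range l).card := card_le_card (fun b hb => mem_range.2 (hA'l b hb))
      _ = l := card_range l
  set B : Finset ℕ := A' ∪ A.image (fun a => a - a0 + 1) with hB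
  have hD := interval (fun r n => IsSum k (r * (s + 1)) (n + r * a0))
    (by
      intro r r' n n' h h'
      have h1 := h.add h'
      have e1 : r * (s + 1) + r' * (s + 1) = (r + r') * (s + 1) := by ring
      have e2 : n + r * a0 + (n' + r' * a0) = n + n' + (r + r') * a0 := by ring
      rw [e1, e2] at h1
      exact h1)
    B
    (by
      intro b hb
      rcases mem_union.1 hb with hb | hb
      · obtain ⟨a, ha, rfl⟩ := mem_image.1 hb
        have h1 := hmin a ha
        have h2 : IsSum k s a := (mem_filter.1 ha).2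
        have h3 : IsSum k (s + 1) (a + 0) := by
          by_cases hk : k = 0
          · subst hk
            obtain ⟨x, hx⟩ := h2
            exfalso
            -- for k = 0 all members of A are equal to s
            have hall : ∀ a ∈ A, a = s := by
              intro a ha
              obtain ⟨y, hy⟩ := (mem_filter.1 ha).2
              simpa using hy.symm
            have : A.card ≤ 1 := card_le_one.2 (fun a ha b hb => by rw [hall a ha, hall b hb])
            omega
          · simpa using h2.add (isSum_zero hk 1)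
        have e : a - a0 + 1 * a0 = a + 0 := by omega
        simp only [one_mul] at e ⊢
        rw [e]
        exact h3
      · obtain ⟨a, ha, rfl⟩ := mem_image.1 hb
        have h1 := hmin a ha
        have h2 : IsSum k s a := (mem_filter.1 ha).2
        have h3 := h2.add (isSum_pow k 1)
        rw [one_pow] at h3
        have e : a - a0 + 1 + 1 * a0 = a + 1 := by omega
        simp only [one_mul] at e ⊢
        rw [e]
        exact h3)
    (mem_union_left _ (mem_image.2 ⟨a0, hA0, by simp⟩))
    (mem_union_right _ (mem_image.2 ⟨a0, hA0, by simp⟩))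
    l
    (mem_union_right _ (mem_image.2 ⟨a1, hA1, rfl⟩))
    (ha.trans hcl)
    (by
      intro b hb
      rcases mem_union.1 hb with hb | hb
      · exact (hA'l b hb).le
      · obtain ⟨a, ha, rfl⟩ := mem_image.1 hb
        have h2 := hmax a ha
        omega)
    j
    (by
      have h1 : A.card ≤ (B.filter (· < l)).card := by
        rw [← hcA']
        apply card_le_card
        intro b hb
        exact mem_filter.2 ⟨mem_union_left _ hb, hA'l b hb⟩
      have h2 : (j + 2) * A.card ≤ (j + 2) * (B.filter (· < l)).card := Nat.mul_le_mul_left _ h1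
      omega)
  refine ⟨(j + 1) * l + (2 * j + 3) * a0, l, hcl, ?_, ?_⟩
  · have h1 : l ≤ M := by omega
    calc (j + 1) * l + (2 * j + 3) * a0 ≤ (j + 1) * (u + M) + (2 * j + 3) * (u + M) := by
          gcongr <;> omega
      _ = (3 * j + 4) * (u + M) := by ring
  · intro n hn1 hn2
    have h1 := hD (n - (2 * j + 3) * a0) (by omega) (by
      have : (j + 2) * l = (j + 1) * l + l := by ring
      omega)
    have e : n - (2 * j + 3) * a0 + (2 * j + 3) * a0 = n := by omega
    rwa [e] at h1

/-- For all large `N` some interval of length at least `N` in `[0, N ^ C]` contains a proportion at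
least `1 / C` of sums of `s` `k`-th powers. -/
def DenseIntervals (k s C : ℕ) : Prop :=
  ∃ N₀ : ℕ, ∀ N ≥ N₀, ∃ u M : ℕ, N ≤ M ∧ u + M ≤ N ^ C ∧ M ≤ C * count k s u M

theorem criterion (k s C : ℕ) (hk : 2 ≤ k) (h : DenseIntervals k s C) :
    ∃ N₁ : ℕ, ∀ n ≥ N₁, IsSum k (4 * C * (s + 1) + 2 * k * (C + 1)) n := by
  obtain ⟨N₀, h⟩ := h
  obtain ⟨L₀, hL0, hpow⟩ := power k hk
  -- C is positive
  have hC : 1 ≤ C := by
    rcases Nat.eq_zero_or_pos C with rfl | hC
    · obtain ⟨u, M, h1, h2, h3⟩ := h (N₀ + 2) (by omega)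
      omega
    · exact hC
  -- every window
  have hwin : ∀ N : ℕ, N₀ ≤ N → C * L₀ ≤ N → C ^ (C + 2) ≤ N → ∀ n, 6 * C * N ^ C ≤ n → n ≤ N ^ (C + 1) →
      IsSum k (4 * C * (s + 1) + 2 * k * (C + 1)) n := by
    intro N hN0 hN1 hN2 n hn1 hn2
    obtain ⟨u, M, h1, h2, h3⟩ := h N hN0
    have hcL : L₀ ≤ count k s u M := by
      by_contra hcon
      push Not at hcon
      have : C * count k s u M < C * L₀ := Nat.mul_lt_mul_of_pos_left hcon hC
      omega
    obtain ⟨w, l, hl, hw, hcov⟩ := complete k s u M (2 * C - 2) (hL0.trans hcL) (by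
      have e : 2 * C - 2 + 2 = 2 * C := by omega
      rw [e]
      nlinarith)
    have hcov2 := hpow _ _ _ (hcL.trans hl) hcov (C + 1)
    have hlN : N ≤ C * l := h1.trans (h3.trans (Nat.mul_le_mul_left _ hl))
    have hl1 : 1 ≤ l := by omega
    have hbig : N ^ (C + 1) ≤ l ^ 2 ^ (C + 1) := by
      have h5 : C + 2 ≤ 2 ^ (C + 1) := by
        have := Nat.lt_two_pow_self (n := C)
        rw [pow_succ]
        omega
      have h6 : l ^ (C + 2) ≤ l ^ 2 ^ (C + 1) := Nat.pow_le_pow_right hl1 h5
      refine le_trans ?_ h6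
      have h7 : N ^ (C + 2) ≤ C ^ (C + 2) * l ^ (C + 2) := by
        rw [← mul_pow]
        exact Nat.pow_le_pow_left hlN _
      have h8 : C ^ (C + 2) * N ^ (C + 1) ≤ C ^ (C + 2) * l ^ (C + 2) := by
        refine le_trans ?_ h7
        calc C ^ (C + 2) * N ^ (C + 1) ≤ N * N ^ (C + 1) := Nat.mul_le_mul_right _ hN2
          _ = N ^ (C + 2) := by ring
      exact Nat.le_of_mul_le_mul_left h8 (by positivity)
    have hw2 : w ≤ n := by
      refine hw.trans (le_trans ?_ hn1)
      have e : 3 * (2 * C - 2) + 4 ≤ 6 * C := by omega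
      calc (3 * (2 * C - 2) + 4) * (u + M) ≤ 6 * C * (u + M) := Nat.mul_le_mul_right _ e
        _ ≤ 6 * C * N ^ C := Nat.mul_le_mul_left _ h2
    have h9 := hcov2 n hw2 (by omega)
    refine h9.mono (by omega) ?_
    have e : 2 * (2 * C - 2) + 3 ≤ 4 * C := by omega
    calc (2 * (2 * C - 2) + 3) * (s + 1) + 2 * k * (C + 1) ≤ 4 * C * (s + 1) + 2 * k * (C + 1) := by
          gcongr
      _ = _ := rfl
  -- all large integers
  set K : ℕ := N₀ + C * L₀ + C ^ (C + 2) + 6 * C * 2 ^ C with hK
  refine ⟨6 * C * K ^ C + K, fun n hn => ?_⟩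
  set N := Nat.findGreatest (fun N => 6 * C * N ^ C ≤ n) n with hN
  have hK1 : K ≤ N := Nat.le_findGreatest (by omega) (by omega)
  have hN1 : 6 * C * N ^ C ≤ n := by
    have := Nat.findGreatest_spec (P := fun N => 6 * C * N ^ C ≤ n) (m := K) (n := n) (by omega) (by omega)
    exact this
  have hle : ∀ z : ℕ, z ≤ 6 * C * z ^ C := by
    intro z
    rcases Nat.eq_zero_or_pos z with rfl | hz
    · simp
    · calc z = z ^ 1 := (pow_one z).symm
        _ ≤ z ^ C := Nat.pow_le_pow_right hz hC
        _ ≤ 6 * C * z ^ C := Nat.le_mul_of_pos_left _ (by omega)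
  have hN2 : n < 6 * C * (N + 1) ^ C := by
    by_contra hcon
    push Not at hcon
    have h1 : N + 1 ≤ n := (hle _).trans hcon
    have := Nat.le_findGreatest (P := fun N => 6 * C * N ^ C ≤ n) h1 hcon
    omega
  apply hwin N (by omega) (by omega) (by omega) n hN1
  have hK0 : 1 ≤ K := by
    have : 1 ≤ C ^ (C + 2) := Nat.one_le_pow _ _ hC
    omega
  calc n ≤ 6 * C * (N + 1) ^ C := hN2.le
    _ ≤ 6 * C * (2 * N) ^ C := by gcongr; omega
    _ = 6 * C * 2 ^ C * N ^ C := by rw [mul_pow]; ring
    _ ≤ N * N ^ C := by gcongr; omega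
    _ = N ^ (C + 1) := by ring

end Pool.Agent.Q110.GW
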