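import Mathlib
import Pool.Agent.Q110.GW.Cyc

/-!
# Every residue class is a sum of `8 k` `k`-th powers
-/

set_option autoImplicit false

open Finset

namespace Pool.Agent.Q110.GW

/-- `a` is a sum of `s` `k`-th powers in `R` -/
def Rep {R : Type} [CommRing R] (k s : ℕ) (a : R) : Prop := ∃ x : Fin s → R, ∑ i, x i ^ k = a

theorem Rep.add {R : Type} [CommRing R] {k s t : ℕ} {a b : R} (h : Rep k s a) (h' : Rep k t b) :
    Rep k (s + t) (a + b) := by
  obtain ⟨x, rfl⟩ := h
  obtain ⟨y, rfl⟩ := h'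
  refine ⟨Fin.append x y, ?_⟩
  rw [Fin.sum_univ_add]
  simp

theorem rep_pow {R : Type} [CommRing R] (k : ℕ) (a : R) : Rep k 1 (a ^ k) := ⟨fun _ => a, by simp⟩

theorem Rep.mono {R : Type} [CommRing R] {k s t : ℕ} (hk : k ≠ 0) {a : R} (h : Rep k s a)
    (hst : s ≤ t) : Rep k t a := by
  obtain ⟨d, rfl⟩ := Nat.exists_eq_add_of_le hst
  have h0 : Rep k d (0 : R) := ⟨fun _ => 0, by simp [hk]⟩
  simpa using h.add h0

theorem exists_order (k : ℕ) (hk : k ≠ 0) (p n : ℕ) (hp : p.Prime) (hn : 0 < n) :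
    ∃ y : ZMod (p ^ n), p ^ n ≤ 4 * k * orderOf (y ^ k) := by
  have hquot : ∀ {M : Type} [Monoid M] (x : M), orderOf x ≤ k * orderOf (x ^ k) := by
    intro M _ x
    rw [orderOf_pow' x hk]
    have h1 : (orderOf x).gcd k ≤ k := Nat.gcd_le_right _ (Nat.pos_of_ne_zero hk)
    have h2 : orderOf x / (orderOf x).gcd k * (orderOf x).gcd k = orderOf x :=
      Nat.div_mul_cancel (Nat.gcd_dvd_left _ _)
    calc orderOf x = (orderOf x).gcd k * (orderOf x / (orderOf x).gcd k) := by rw [mul_comm]; exact h2.symm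
      _ ≤ k * (orderOf x / (orderOf x).gcd k) := Nat.mul_le_mul_right _ h1
  by_cases h2 : p = 2
  · subst h2
    rcases Nat.lt_or_ge n 2 with h | h
    · have : n = 1 := by omega
      subst this
      refine ⟨1, ?_⟩
      rw [one_pow, orderOf_one]
      omega
    · obtain ⟨m, rfl⟩ : ∃ m, n = m + 2 := ⟨n - 2, by omega⟩
      refine ⟨5, ?_⟩
      have h5 := ZMod.orderOf_five m
      have h6 := hquot (5 : ZMod (2 ^ (m + 2)))
      rw [h5] at h6
      calc 2 ^ (m + 2) = 4 * 2 ^ m := by ring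
        _ ≤ 4 * (k * orderOf ((5 : ZMod (2 ^ (m + 2))) ^ k)) := Nat.mul_le_mul_left _ h6
        _ = _ := by ring
  · have hc := ZMod.isCyclic_units_of_prime_pow p hp h2 n
    haveI : NeZero (p ^ n) := ⟨(pow_pos hp.pos n).ne'⟩
    obtain ⟨g, hg⟩ := hc.exists_generator
    have ho : orderOf g = Nat.totient (p ^ n) := by
      rw [← ZMod.card_units_eq_totient, ← Nat.card_eq_fintype_card]
      exact orderOf_eq_card_of_forall_mem_zpowers hg
    refine ⟨(g : ZMod (p ^ n)), ?_⟩
    have h6 := hquot (g : ZMod (p ^ n))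
    rw [orderOf_units, ho, Nat.totient_prime_pow hp hn] at h6
    have hp2 : 2 ≤ p := hp.two_le
    have h7 : p ^ n ≤ 2 * (p ^ (n - 1) * (p - 1)) := by
      have e : p ^ n = p ^ (n - 1) * p := by
        rw [← pow_succ]; congr 1; omega
      rw [e]
      have : p ≤ 2 * (p - 1) := by omega
      calc p ^ (n - 1) * p ≤ p ^ (n - 1) * (2 * (p - 1)) := Nat.mul_le_mul_left _ this
        _ = _ := by ring
    calc p ^ n ≤ 2 * (p ^ (n - 1) * (p - 1)) := h7
      _ ≤ 2 * (k * orderOf ((g : ZMod (p ^ n)) ^ k)) := Nat.mul_le_mul_left _ h6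
      _ ≤ 4 * (k * orderOf ((g : ZMod (p ^ n)) ^ k)) := Nat.mul_le_mul_right _ (by norm_num)
      _ = _ := by ring

theorem local_prime_pow (k : ℕ) (hk : k ≠ 0) (p n : ℕ) (hp : p.Prime) (hn : 0 < n) :
    ∀ a : ZMod (p ^ n), Rep k (8 * k) a := by
  haveI : NeZero (p ^ n) := ⟨(pow_pos hp.pos n).ne'⟩
  obtain ⟨y, hy⟩ := exists_order k hk p n hp hn
  set S : Finset (ZMod (p ^ n)) := (range (orderOf (y ^ k))).image (fun i => (y ^ k) ^ i) with hS
  have hcS : S.card = orderOf (y ^ k) := by
    rw [hS, card_image_of_injOn, card_range]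
    intro i hi j hj hij
    exact pow_injOn_Iio_orderOf (by simpa using hi) (by simpa using hj) hij
  set T : Finset (ZMod (p ^ n)) := insert 0 (insert 1 S) with hT
  have hcT : S.card ≤ T.card := card_le_card (by
    intro x hx
    simp [hT, hx])
  have hTrep : ∀ t ∈ T, Rep k 1 t := by
    intro t ht
    rw [hT, mem_insert, mem_insert] at ht
    rcases ht with rfl | rfl | ht
    · have := rep_pow (R := ZMod (p ^ n)) k 0
      rwa [zero_pow hk] at this
    · have := rep_pow (R := ZMod (p ^ n)) k 1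
      rwa [one_pow] at this
    · obtain ⟨i, _, rfl⟩ := mem_image.1 ht
      have := rep_pow (R := ZMod (p ^ n)) k (y ^ i)
      rwa [← pow_mul, mul_comm, pow_mul] at this
  have hit : ∀ j, ∀ x ∈ it T j, Rep k (j + 1) x := by
    intro j
    induction j with
    | zero => intro x hx; simpa using hTrep x hx
    | succ j ih =>
      intro x hx
      obtain ⟨a, ha, b, hb, rfl⟩ := mem_add.1 hx
      exact (ih a ha).add (hTrep b hb)
  have huniv : it T (8 * k - 2) = univ := by
    rcases growth T (by simp [hT]) (by simp [hT]) (8 * k - 2) with h | h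
    · exact h
    · apply eq_univ_of_card
      rw [ZMod.card]
      have h2 : (it T (8 * k - 2)).card ≤ p ^ n := by
        have := card_le_univ (it T (8 * k - 2))
        rwa [ZMod.card] at this
      have e : 8 * k - 2 + 2 = 8 * k := by omega
      rw [e] at h
      have h3 : 8 * k * S.card ≤ 8 * k * T.card := Nat.mul_le_mul_left _ hcT
      rw [hcS] at h3
      have h4 : 8 * k * orderOf (y ^ k) = 2 * (4 * k * orderOf (y ^ k)) := by ring
      omega
  intro a
  have h1 := hit (8 * k - 2) a (by rw [huniv]; exact mem_univ a)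
  exact h1.mono hk (by omega)

theorem local_all (k : ℕ) (hk : k ≠ 0) (q : ℕ) : q ≠ 0 → ∀ a : ZMod q, Rep k (8 * k) a := by
  induction q using Nat.recOnPosPrimePosCoprime with
  | zero => intro h; exact absurd rfl h
  | one =>
    intro _ a
    exact ⟨fun _ => 0, Subsingleton.elim _ _⟩
  | prime_pow p n hp hn => intro _; exact local_prime_pow k hk p n hp hn
  | coprime a b ha hb hab iha ihb =>
    intro _ x
    obtain ⟨y, hy⟩ := iha (by omega) ((ZMod.chineseRemainder hab x).1)
    obtain ⟨z, hz⟩ := ihb (by omega) ((ZMod.chineseRemainder hab x).2)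
    refine ⟨fun i => (ZMod.chineseRemainder hab).symm (y i, z i), ?_⟩
    apply (ZMod.chineseRemainder hab).injective
    rw [map_sum]
    simp only [map_pow, RingEquiv.apply_symm_apply]
    ext
    · rw [Prod.fst_sum]
      simpa using hy
    · rw [Prod.snd_sum]
      simpa using hz

/-- Every residue class modulo `D` contains a sum of `8 k` `k`-th powers of natural numbers less
than `D`. -/
theorem local_nat (k : ℕ) (hk : k ≠ 0) (D : ℕ) (hD : 0 < D) (a : ZMod D) :
    ∃ y : Fin (8 * k) → ℕ, (∀ i, y i < D) ∧ ((∑ i, y i ^ k : ℕ) : ZMod D) = a := by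
  haveI : NeZero D := ⟨hD.ne'⟩
  obtain ⟨x, hx⟩ := local_all k hk D hD.ne' a
  refine ⟨fun i => (x i).val, fun i => ZMod.val_lt _, ?_⟩
  push_cast
  simp only [ZMod.natCast_val, ZMod.cast_id', id_eq]
  exact hx

end Pool.Agent.Q110.GW
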