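import Mathlib
import Pool.Agent.Q110.GW.Cyc
import Pool.Agent.Q110.GW.Grow
import Pool.Agent.Q110.GW.Local

/-!
# Dense progressions of sums of `k`-th powers
-/

set_option autoImplicit false

open Finset
open scoped Pointwise

namespace Pool.Agent.Q110.GW

open Pool.Agent.Helper450.Kneser

/-- Growth of iterated sumsets of a generating set containing `0`. -/
theorem growthGen {l : ℕ} [NeZero l] (T : Finset (ZMod l)) (h0 : (0 : ZMod l) ∈ T)
    (hgen : ∀ H : AddSubgroup (ZMod l), (∀ t ∈ T, t ∈ H) → H = ⊤)
    (j : ℕ) : it T j = univ ∨ (j + 2) * T.card ≤ 2 * (it T j).card := by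
  induction j with
  | zero => right; simp [it]
  | succ j ih =>
    by_cases hu : it T (j + 1) = univ
    · left; exact hu
    right
    have hT : T.Nonempty := ⟨0, h0⟩
    have hk := kneser' (it T j) T (it_nonempty hT j) hT
    set H := stab (it T j + T) with hH
    have hHt : H ≠ ⊤ := by
      intro hc
      apply hu
      obtain ⟨x, hx⟩ := (it_nonempty hT j).add hT
      ext y
      simp only [mem_univ, iff_true]
      have h3 : y - x ∈ H := by rw [hc]; exact AddSubgroup.mem_top _
      have h4 := stab_add h3 hx
      have : x + (y - x) = y := by abel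
      rw [this] at h4
      exact h4
    obtain ⟨t, ht, htH⟩ : ∃ t ∈ T, t ∉ H := by
      by_contra hcon
      push Not at hcon
      exact hHt (hgen H hcon)
    have h2 : 2 * (fs H).card ≤ (T + fs H).card := by
      have hsub : fs H ∪ (fs H).image (fun x => t + x) ⊆ T + fs H := by
        intro x hx
        rcases mem_union.1 hx with hx | hx
        · have := add_mem_add h0 hx
          rwa [zero_add] at this
        · obtain ⟨y, hy, rfl⟩ := mem_image.1 hx
          exact add_mem_add ht hy
      have hdis : Disjoint (fs H) ((fs H).image (fun x => t + x)) := by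
        rw [disjoint_left]
        intro x hx hx'
        obtain ⟨y, hy, rfl⟩ := mem_image.1 hx'
        have a := mem_fs.1 hx
        have b := mem_fs.1 hy
        apply htH
        have := H.sub_mem a b
        simpa using this
      have hc := card_le_card hsub
      rw [card_union_of_disjoint hdis, card_image_of_injective _ (add_right_injective t)] at hc
      omega
    have h3 : T.card ≤ (T + fs H).card := card_le_card (by
      intro x hx
      have := add_mem_add hx (mem_fs.mpr H.zero_mem)
      rwa [add_zero] at this)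
    have h4 : (it T j).card ≤ (it T j + fs H).card := card_le_card (by
      intro x hx
      have := add_mem_add hx (mem_fs.mpr H.zero_mem)
      rwa [add_zero] at this)
    have h5 : it T (j + 1) = it T j + T := rfl
    rcases ih with ih | ih
    · exfalso
      apply hu
      rw [h5, ih]
      ext y
      simp only [mem_univ, iff_true]
      have := add_mem_add (mem_univ y) h0
      rwa [add_zero] at this
    · rw [h5]
      have e : (j + 1 + 2) * T.card = (j + 2) * T.card + T.card := by ring
      rw [e]
      omega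

/-- Sets of natural numbers with greatest common divisor one. -/
theorem intervalGen (D : ℕ → ℕ → Prop) (hadd : ∀ r r' n n', D r n → D r' n' → D (r + r') (n + n'))
    (B : Finset ℕ) (hB : ∀ b ∈ B, D 1 b) (h0 : 0 ∈ B) (hgcd : B.gcd id = 1) (l : ℕ) (hl : l ∈ B)
    (hl1 : 1 ≤ l) (hBl : ∀ b ∈ B, b ≤ l) (j : ℕ) (hj : 2 * l ≤ (j + 2) * ((B.filter (· < l)).card))
    (m : ℕ) (hm1 : (j + 1) * l ≤ m) (hm2 : m ≤ (j + 2) * l) : D (2 * j + 3) m := by
  haveI : NeZero l := ⟨by omega⟩
  set T : Finset (ZMod l) := B.image (fun b : ℕ => (b : ZMod l)) with hT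
  have hT0 : (0 : ZMod l) ∈ T := mem_image.2 ⟨0, h0, by simp⟩
  have hgen : ∀ H : AddSubgroup (ZMod l), (∀ t ∈ T, t ∈ H) → H = ⊤ := by
    intro H hH
    -- the integers whose class lies in H
    set K : AddSubgroup ℤ := H.comap (Int.castAddHom (ZMod l)) with hK
    obtain ⟨g, hg⟩ := Int.subgroup_cyclic K
    have hmem : ∀ z : ℤ, z ∈ K ↔ g ∣ z := by
      intro z
      rw [hg, ← AddSubgroup.zmultiples_eq_closure, Int.mem_zmultiples_iff]
    have hgB : ∀ b ∈ B, g.natAbs ∣ b := by
      intro b hb
      have h1 : (b : ℤ) ∈ K := by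
        rw [hK, AddSubgroup.mem_comap]
        have := hH (b : ZMod l) (mem_image.2 ⟨b, hb, rfl⟩)
        simpa using this
      have h2 := (hmem _).1 h1
      exact Int.natAbs_dvd_natAbs.2 h2
    have hg1 : g.natAbs ∣ 1 := by
      rw [← hgcd]
      exact Finset.dvd_gcd hgB
    have hg1' : g ∣ 1 := by
      have := Int.natCast_dvd_natCast.2 hg1
      simpa using this
    rw [eq_top_iff]
    intro x _
    have h3 : ((x.val : ℕ) : ℤ) ∈ K := (hmem _).2 (hg1'.trans (one_dvd _))
    rw [hK, AddSubgroup.mem_comap] at h3
    simpa using h3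
  have hcard : (B.filter (· < l)).card ≤ T.card := by
    rw [← card_image_of_injOn (s := B.filter (· < l)) (f := fun b : ℕ => (b : ZMod l))]
    · exact card_le_card (image_subset_image (filter_subset _ _))
    · intro a ha b hb hab
      have ha' := (mem_filter.1 ha).2
      have hb' := (mem_filter.1 hb).2
      have := congrArg ZMod.val hab
      simp only [ZMod.val_natCast] at this
      rwa [Nat.mod_eq_of_lt ha', Nat.mod_eq_of_lt hb'] at this
  have hrep : ∀ i : ℕ, ∀ x ∈ it T i, ∃ n : ℕ, n ≤ (i + 1) * l ∧ (n : ZMod l) = x ∧ D (i + 1) n := by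
    intro i
    induction i with
    | zero =>
      intro x hx
      obtain ⟨b, hb, rfl⟩ := mem_image.1 hx
      exact ⟨b, by simpa using hBl b hb, rfl, hB b hb⟩
    | succ i ih =>
      intro x hx
      obtain ⟨y, hy, z, hz, rfl⟩ := mem_add.1 hx
      obtain ⟨n, hn1, hn2, hn3⟩ := ih y hy
      obtain ⟨b, hb, rfl⟩ := mem_image.1 hz
      refine ⟨n + b, ?_, by push_cast; rw [hn2], hadd _ _ _ _ hn3 (hB b hb)⟩
      have := hBl b hb
      calc n + b ≤ (i + 1) * l + l := by omega
        _ = (i + 1 + 1) * l := by ring
  have huniv : it T j = univ := by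
    rcases growthGen T hT0 hgen j with h | h
    · exact h
    · apply eq_univ_of_card
      rw [ZMod.card]
      have h2 : (it T j).card ≤ l := by
        have := card_le_univ (it T j)
        rwa [ZMod.card] at this
      have h3 : (j + 2) * (B.filter (· < l)).card ≤ (j + 2) * T.card := Nat.mul_le_mul_left _ hcard
      omega
  obtain ⟨n, hn1, hn2, hn3⟩ := hrep j (m : ZMod l) (by rw [huniv]; exact mem_univ _)
  have hnm : n ≤ m := hn1.trans hm1
  have hdvd : l ∣ m - n := by
    have h4 : (n : ZMod l) = (m : ZMod l) := hn2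
    rw [ZMod.natCast_eq_natCast_iff] at h4
    exact (Nat.modEq_iff_dvd' hnm).1 h4
  obtain ⟨i, hi⟩ := hdvd
  have hi2 : i ≤ j + 2 := by
    by_contra hc
    push Not at hc
    have : l * (j + 3) ≤ l * i := Nat.mul_le_mul_left _ hc
    have h5 : l * (j + 3) = (j + 2) * l + l := by ring
    omega
  have hrun : ∀ i : ℕ, D (j + 1 + i) (n + l * i) := by
    intro i
    induction i with
    | zero => simpa using hn3
    | succ i ih =>
      have := hadd _ _ _ _ ih (hB l hl)
      have e : n + l * i + l = n + l * (i + 1) := by ring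
      rw [e] at this
      exact this
  have hpad : ∀ i r n', D r n' → D (r + i) n' := by
    intro i r n' h
    induction i with
    | zero => simpa using h
    | succ i ih =>
      have := hadd _ _ _ _ ih (hB 0 h0)
      simpa [add_assoc] using this
  have h6 := hpad (j + 2 - i) _ _ (hrun i)
  have e1 : j + 1 + i + (j + 2 - i) = 2 * j + 3 := by omega
  have e2 : n + l * i = m := by omega
  rw [e1, e2] at h6
  exact h6

open Classical in
/-- the number of the `i < M` for which `a + i d` is a sum of `s` `k`-th powers -/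
noncomputable def countP (k s a d M : ℕ) : ℕ := ((range M).filter (fun i => IsSum k s (a + i * d))).card

/-- **One dense progression.** A progression `a + i d`, `i < M`, with at least `b + 1 ≥ 2` sums of `s`
`k`-th powers, `2 M ≤ (j + 2) b`, gives a complete interval of length at least `l D / 2`
of sums of `(2 j + 3) s + 8 k` `k`-th powers, where `l ≥ b` and `D` is a multiple of `d` with
`l D ≤ M d`, provided that `16 k D ^ (k - 1) ≤ l`. -/
theorem completeP (k s a d M b j : ℕ) (hk : 2 ≤ k) (hd : 1 ≤ d) (hb : 1 ≤ b)
    (hc : b + 1 ≤ countP k s a d M) (hj : 2 * M ≤ (j + 2) * b)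
    (hlarge : 16 * k * (M * d) ^ (k - 1) ≤ b ^ k) :
    ∃ w L : ℕ, b ≤ 2 * L ∧ w ≤ (3 * j + 6) * (a + M * d) ∧ Cover k ((2 * j + 3) * s + 8 * k) w L := by
  classical
  set A : Finset ℕ := (range M).filter (fun i => IsSum k s (a + i * d)) with hA
  have hcA : b + 1 ≤ A.card := by
    unfold countP at hc
    convert hc
  have hne : A.Nonempty := card_pos.1 (by omega)
  set i0 := A.min' hne with hi0
  set i1 := A.max' hne with hi1
  have hA0 : i0 ∈ A := A.min'_mem hne
  have hA1 : i1 ∈ A := A.max'_mem hne
  have hmin : ∀ i ∈ A, i0 ≤ i := fun i h => A.min'_le i h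
  have hmax : ∀ i ∈ A, i ≤ i1 := fun i h => A.le_max' i h
  have hi1M : i1 < M := mem_range.1 (mem_filter.1 hA1).1
  set B0 : Finset ℕ := A.image (fun i => i - i0) with hB0
  have hcB0 : B0.card = A.card := by
    rw [hB0]
    apply card_image_of_injOn
    intro x hx y hy hxy
    have h1 := hmin x hx
    have h2 := hmin y hy
    simp only at hxy
    omega
  -- the greatest common divisor
  set e := B0.gcd id with he
  have hle : ∀ x ∈ B0, e ∣ x := fun x hx => Finset.gcd_dvd hx
  have hl0 : i1 - i0 ∈ B0 := mem_image.2 ⟨i1, hA1, rfl⟩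
  have hB0le : ∀ x ∈ B0, x ≤ i1 - i0 := by
    intro x hx
    obtain ⟨i, hi, rfl⟩ := mem_image.1 hx
    have := hmax i hi
    omega
  have hpos : 1 ≤ i1 - i0 := by
    by_contra hcon
    have h1 : B0 ⊆ {0} := by
      intro x hx
      have := hB0le x hx
      rw [mem_singleton]; omega
    have := card_le_card h1
    rw [card_singleton] at this
    omega
  have he1 : 1 ≤ e := by
    rcases Nat.eq_zero_or_pos e with h | h
    · have := hle _ hl0
      rw [h, zero_dvd_iff] at this
      omega
    · exact h
  set B : Finset ℕ := B0.image (fun x => x / e) with hB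
  have hcB : B.card = B0.card := by
    rw [hB]
    apply card_image_of_injOn
    intro x hx y hy hxy
    obtain ⟨u, rfl⟩ := hle x hx
    obtain ⟨v, rfl⟩ := hle y hy
    simp only [Nat.mul_div_cancel_left _ he1] at hxy
    rw [hxy]
  set l := (i1 - i0) / e with hl
  have hlB : l ∈ B := mem_image.2 ⟨_, hl0, rfl⟩
  have hel : e * l = i1 - i0 := Nat.mul_div_cancel' (hle _ hl0)
  have hl1 : 1 ≤ l := by
    rcases Nat.eq_zero_or_pos l with h | h
    · rw [h, mul_zero] at hel; omega
    · exact h
  have hBl : ∀ x ∈ B, x ≤ l := by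
    intro x hx
    obtain ⟨y, hy, rfl⟩ := mem_image.1 hx
    exact Nat.div_le_div_right (hB0le y hy)
  have hgcd : B.gcd id = 1 := by
    have h1 : e * B.gcd id ∣ e := by
      conv_rhs => rw [he]
      apply Finset.dvd_gcd
      intro x hx
      have h2 : B.gcd id ∣ x / e := Finset.gcd_dvd (f := id) (mem_image.2 ⟨x, hx, rfl⟩)
      have h3 := Nat.mul_dvd_mul_left e h2
      rwa [Nat.mul_div_cancel' (hle x hx)] at h3
    have h2 : e * B.gcd id ≤ e * 1 := by
      rw [mul_one]; exact Nat.le_of_dvd he1 h1
    have h3 := Nat.le_of_mul_le_mul_left h2 he1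
    have h4 : B.gcd id ≠ 0 := by
      intro h5
      rw [h5, mul_zero, zero_dvd_iff] at h1
      omega
    omega
  have h0B : 0 ∈ B := by
    refine mem_image.2 ⟨0, mem_image.2 ⟨i0, hA0, by simp⟩, by simp⟩
  -- cardinality of the elements less than l
  have hbl : b ≤ (B.filter (· < l)).card := by
    have h1 : B ⊆ (B.filter (· < l)) ∪ {l} := by
      intro x hx
      rcases Nat.lt_or_ge x l with h | h
      · exact mem_union_left _ (mem_filter.2 ⟨hx, h⟩)
      · exact mem_union_right _ (mem_singleton.2 (le_antisymm (hBl x hx) h))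
    have h2 := card_le_card h1
    have h3 := card_union_le (B.filter (· < l)) {l}
    rw [card_singleton] at h3
    omega
  have hbl2 : b ≤ l := by
    refine hbl.trans ?_
    calc (B.filter (· < l)).card ≤ (range l).card := card_le_card (fun x hx => by
            rw [mem_range]; exact (mem_filter.1 hx).2)
      _ = l := card_range l
  set D := e * d with hD
  have hlD : l * D = (i1 - i0) * d := by rw [hD, ← hel]; ring
  have hlDM : l * D ≤ M * d := by rw [hlD]; exact Nat.mul_le_mul_right _ (by omega)
  have hlM : l ≤ M := by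
    have : l ≤ e * l := Nat.le_mul_of_pos_left _ he1
    omega
  set w0 := (2 * j + 3) * (a + i0 * d) with hw0
  have hprog : ∀ m, (j + 1) * l ≤ m → m ≤ (j + 2) * l → IsSum k ((2 * j + 3) * s) (w0 + m * D) := by
    intro m hm1 hm2
    have := intervalGen (fun r n => IsSum k (r * s) (r * (a + i0 * d) + n * D))
      (by
        intro r r' n n' h h'
        have h1 := h.add h'
        have e1 : r * s + r' * s = (r + r') * s := by ring
        have e2 : r * (a + i0 * d) + n * D + (r' * (a + i0 * d) + n' * D) =
          (r + r') * (a + i0 * d) + (n + n') * D := by ring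
        rw [e1, e2] at h1
        exact h1)
      B
      (by
        intro x hx
        obtain ⟨y, hy, rfl⟩ := mem_image.1 hx
        obtain ⟨i, hi, rfl⟩ := mem_image.1 hy
        have h1 := hmin i hi
        have h2 : IsSum k s (a + i * d) := (mem_filter.1 hi).2
        have e1 : (i - i0) / e * D = (i - i0) * d := by
          rw [hD, ← mul_assoc, Nat.div_mul_cancel (hle _ hy)]
        have e2 : 1 * (a + i0 * d) + (i - i0) / e * D = a + i * d := by
          rw [e1, one_mul, add_assoc, ← add_mul]
          congr 2
          omega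
        simp only [one_mul] at e2 ⊢
        rw [e2]
        exact h2)
      h0B hgcd l hlB hl1 hBl j
      (by
        have h2 : (j + 2) * b ≤ (j + 2) * (B.filter (· < l)).card := Nat.mul_le_mul_left _ hbl
        omega)
      m hm1 hm2
    exact this
  -- filling the residues
  have hD1 : 1 ≤ D := Nat.mul_pos he1 hd
  set E := 8 * k * D ^ k with hE
  have hEl : 2 * E ≤ l * D := by
    -- 16 k D^(k-1) ≤ l, as D l ≤ M d and b ≤ l
    have h1 : 16 * k * (D * l) ^ (k - 1) ≤ l ^ k := by
      calc 16 * k * (D * l) ^ (k - 1) ≤ 16 * k * (M * d) ^ (k - 1) := by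
            have : D * l ≤ M * d := by rw [mul_comm]; exact hlDM
            gcongr
        _ ≤ b ^ k := hlarge
        _ ≤ l ^ k := Nat.pow_le_pow_left hbl2 k
    have h2 : l ^ k = l * l ^ (k - 1) := by
      rw [← pow_succ']; congr 1; omega
    have h3 : 16 * k * D ^ (k - 1) ≤ l := by
      rw [mul_pow, h2, ← mul_assoc] at h1
      exact Nat.le_of_mul_le_mul_right h1 (by positivity)
    have h4 : D ^ k = D ^ (k - 1) * D := by
      rw [← pow_succ]; congr 1; omega
    calc 2 * E = 16 * k * D ^ (k - 1) * D := by rw [hE, h4]; ring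
      _ ≤ l * D := Nat.mul_le_mul_right _ h3
  refine ⟨w0 + (j + 1) * l * D + E, l * D - E, ?_, ?_, ?_⟩
  · have h1 : l ≤ l * D := Nat.le_mul_of_pos_right _ hD1
    omega
  · have h1 : E ≤ M * d := by omega
    have h2 : (j + 1) * l * D ≤ (j + 1) * (M * d) := by
      rw [mul_assoc]; exact Nat.mul_le_mul_left _ hlDM
    have h3 : a + i0 * d ≤ a + M * d := by
      have : i0 ≤ M := by
        have := mem_range.1 (mem_filter.1 hA0).1
        omega
      gcongr
    calc w0 + (j + 1) * l * D + E ≤ (2 * j + 3) * (a + M * d) + (j + 1) * (M * d) + M * d := by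
          rw [hw0]; gcongr
      _ ≤ (2 * j + 3) * (a + M * d) + (j + 1) * (a + M * d) + (a + M * d) := by gcongr <;> omega
      _ ≤ (3 * j + 6) * (a + M * d) := by nlinarith
  · intro n hn1 hn2
    obtain ⟨y, hy1, hy2⟩ := local_nat k (by omega) D hD1 ((n : ZMod D) - (w0 : ZMod D))
    set F := ∑ i, y i ^ k with hF
    have hFE : F ≤ E := by
      calc F ≤ ∑ _i : Fin (8 * k), D ^ k := by
            apply Finset.sum_le_sum
            intro i _
            exact Nat.pow_le_pow_left (hy1 i).le k
        _ = 8 * k * D ^ k := by simp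
    have hFn : w0 + F ≤ n := by
      have : E ≤ (j + 1) * l * D + E := Nat.le_add_left _ _
      omega
    have hdvd : D ∣ n - (w0 + F) := by
      have h1 : ((w0 + F : ℕ) : ZMod D) = (n : ZMod D) := by
        rw [Nat.cast_add, hy2]; ring
      rw [ZMod.natCast_eq_natCast_iff] at h1
      exact (Nat.modEq_iff_dvd' hFn).1 h1
    obtain ⟨m, hm⟩ := hdvd
    have hmD : m * D = n - (w0 + F) := by rw [hm]; ring
    have hm1 : (j + 1) * l ≤ m := by
      have : (j + 1) * l * D ≤ m * D := by omega
      exact Nat.le_of_mul_le_mul_right this hD1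
    have hm2 : m ≤ (j + 2) * l := by
      have h2 : (j + 2) * l * D = (j + 1) * l * D + l * D := by ring
      have : m * D ≤ (j + 2) * l * D := by omega
      exact Nat.le_of_mul_le_mul_right this hD1
    have h3 := (hprog m hm1 hm2).add (show IsSum k (8 * k) F from ⟨y, rfl⟩)
    have e1 : w0 + m * D + F = n := by omega
    rw [e1] at h3
    exact h3

end Pool.Agent.Q110.GW
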