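import Mathlib
import Pool.Agent.Q110.GW.Prog

/-!
# A criterion with progressions
-/

set_option autoImplicit false

open Finset

namespace Pool.Agent.Q110.GW

/-- For all large `N` there is a progression `a + i d`, `i < M`, with `N ≤ M`, `d ^ k ≤ M` and
`a + M d ≤ N ^ C`, at least `M / c` members of which are sums of `s` `k`-th powers. -/
def DenseProgs (k s c C : ℕ) : Prop :=
  ∃ N₀ : ℕ, ∀ N ≥ N₀, ∃ a d M : ℕ, 1 ≤ d ∧ N ≤ M ∧ d ^ k ≤ M ∧ a + M * d ≤ N ^ C ∧
    M ≤ c * countP k s a d M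

theorem criterionP (k s c C t : ℕ) (hk : 2 ≤ k) (hc : 1 ≤ c) (hC : 1 ≤ C) (ht : C + 2 ≤ 2 ^ t)
    (h : DenseProgs k s c C) :
    ∃ N₁ : ℕ, ∀ n ≥ N₁, IsSum k ((4 * c + 1) * s + (8 + 2 * t) * k) n := by
  obtain ⟨N₀, h⟩ := h
  obtain ⟨L₀, hL0, hpow⟩ := power k hk
  set K₁ := 16 * k * (2 * c) ^ k with hK₁
  have hK1pos : 1 ≤ K₁ := Nat.mul_pos (by omega) (Nat.pow_pos (by omega))
  -- every window
  have hwin : ∀ N : ℕ, N₀ ≤ N → 4 * c * L₀ ≤ N → (4 * c) ^ 2 ^ t ≤ N → c * (2 * c + 1) ≤ N →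
      K₁ ^ k ≤ N → ∀ n, (6 * c + 3) * N ^ C ≤ n → n ≤ N ^ (C + 1) →
      IsSum k ((4 * c + 1) * s + (8 + 2 * t) * k) n := by
    intro N hN0 hN1 hN2 hN3 hN4 n hn1 hn2
    obtain ⟨a, d, M, hd, h1, hdM, h2, h3⟩ := h N hN0
    have hN4c : 4 * c ≤ N := by
      refine le_trans ?_ hN2
      calc 4 * c = (4 * c) ^ 1 := (pow_one _).symm
        _ ≤ (4 * c) ^ 2 ^ t := Nat.pow_le_pow_right (by omega) (Nat.one_le_two_pow)
    have hcnt : 2 ≤ countP k s a d M := by
      by_contra hcon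
      push Not at hcon
      have : c * countP k s a d M ≤ c * 1 := Nat.mul_le_mul_left _ (by omega)
      omega
    obtain ⟨b, hb⟩ : ∃ b, countP k s a d M = b + 1 := ⟨countP k s a d M - 1, by omega⟩
    rw [hb] at h3
    have hb1 : 1 ≤ b := by omega
    -- 2 M ≤ (2 c + 1) b
    have hMb : 2 * M ≤ (2 * c - 1 + 2) * b := by
      have e : 2 * c - 1 + 2 = 2 * c + 1 := by omega
      rw [e]
      -- M ≤ c b + c, so c (2 c + 1) ≤ M ≤ c b + c gives 2 c ≤ b
      have h4 : c * (2 * c + 1) ≤ c * (b + 1) := hN3.trans (h1.trans h3)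
      have h5 : 2 * c + 1 ≤ b + 1 := Nat.le_of_mul_le_mul_left h4 hc
      nlinarith
    have hM2 : M ≤ 2 * c * b := by nlinarith
    have hlarge : 16 * k * (M * d) ^ (k - 1) ≤ b ^ k := by
      have h4 : K₁ * d ^ (k - 1) ≤ M := by
        rcases Nat.lt_or_ge d K₁ with hlt | hge
        · calc K₁ * d ^ (k - 1) ≤ K₁ * K₁ ^ (k - 1) := by gcongr
            _ = K₁ ^ k := by rw [← pow_succ']; congr 1; omega
            _ ≤ M := hN4.trans h1
        · calc K₁ * d ^ (k - 1) ≤ d * d ^ (k - 1) := by gcongr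
            _ = d ^ k := by rw [← pow_succ']; congr 1; omega
            _ ≤ M := hdM
      have h5 : (2 * c) ^ k * (16 * k * (M * d) ^ (k - 1)) ≤ (2 * c) ^ k * b ^ k := by
        calc (2 * c) ^ k * (16 * k * (M * d) ^ (k - 1)) = K₁ * d ^ (k - 1) * M ^ (k - 1) := by
              rw [hK₁, mul_pow]; ring
          _ ≤ M * M ^ (k - 1) := by gcongr
          _ = M ^ k := by rw [← pow_succ']; congr 1; omega
          _ ≤ (2 * c * b) ^ k := Nat.pow_le_pow_left hM2 k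
          _ = (2 * c) ^ k * b ^ k := mul_pow _ _ _
      exact Nat.le_of_mul_le_mul_left h5 (Nat.pow_pos (by omega))
    obtain ⟨w, L, hbL, hw, hcov⟩ := completeP k s a d M b (2 * c - 1) hk hd hb1 hb.ge hMb hlarge
    have hNL : N ≤ 4 * c * L := by
      calc N ≤ M := h1
        _ ≤ 2 * c * b := hM2
        _ ≤ 2 * c * (2 * L) := Nat.mul_le_mul_left _ hbL
        _ = 4 * c * L := by ring
    have hLL : L₀ ≤ L := Nat.le_of_mul_le_mul_left (hN1.trans hNL) (by omega)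
    have hL1 : 1 ≤ L := by omega
    have hcov2 := hpow _ _ _ hLL hcov t
    have hbig : N ^ (C + 1) ≤ L ^ 2 ^ t := by
      have h7 : N ^ 2 ^ t ≤ (4 * c) ^ 2 ^ t * L ^ 2 ^ t := by
        rw [← mul_pow]
        exact Nat.pow_le_pow_left hNL _
      have h8 : (4 * c) ^ 2 ^ t * N ^ (C + 1) ≤ (4 * c) ^ 2 ^ t * L ^ 2 ^ t := by
        refine le_trans ?_ h7
        calc (4 * c) ^ 2 ^ t * N ^ (C + 1) ≤ N * N ^ (C + 1) := Nat.mul_le_mul_right _ hN2
          _ = N ^ (C + 2) := by ring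
          _ ≤ N ^ 2 ^ t := Nat.pow_le_pow_right (by omega) ht
      exact Nat.le_of_mul_le_mul_left h8 (by positivity)
    have hw2 : w ≤ n := by
      refine hw.trans (le_trans ?_ hn1)
      have e : 3 * (2 * c - 1) + 6 = 6 * c + 3 := by omega
      rw [e]
      exact Nat.mul_le_mul_left _ h2
    have h9 := hcov2 n hw2 (by omega)
    refine h9.mono (by omega) (le_of_eq ?_)
    have e : 2 * (2 * c - 1) + 3 = 4 * c + 1 := by omega
    rw [e]
    ring
  -- all large integers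
  set K : ℕ := N₀ + 4 * c * L₀ + (4 * c) ^ 2 ^ t + c * (2 * c + 1) + K₁ ^ k + (6 * c + 3) * 2 ^ C with hK
  refine ⟨(6 * c + 3) * K ^ C + K, fun n hn => ?_⟩
  set N := Nat.findGreatest (fun N => (6 * c + 3) * N ^ C ≤ n) n with hN
  have hKN : K ≤ N := Nat.le_findGreatest (by omega) (by omega)
  have hN1 : (6 * c + 3) * N ^ C ≤ n := by
    have := Nat.findGreatest_spec (P := fun N => (6 * c + 3) * N ^ C ≤ n) (m := K) (n := n)
      (by omega) (by omega)
    exact this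
  have hle : ∀ z : ℕ, z ≤ (6 * c + 3) * z ^ C := by
    intro z
    rcases Nat.eq_zero_or_pos z with rfl | hz
    · simp
    · calc z = z ^ 1 := (pow_one z).symm
        _ ≤ z ^ C := Nat.pow_le_pow_right hz hC
        _ ≤ (6 * c + 3) * z ^ C := Nat.le_mul_of_pos_left _ (by omega)
  have hN2 : n < (6 * c + 3) * (N + 1) ^ C := by
    by_contra hcon
    push Not at hcon
    have h1 : N + 1 ≤ n := (hle _).trans hcon
    have := Nat.le_findGreatest (P := fun N => (6 * c + 3) * N ^ C ≤ n) h1 hcon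
    omega
  have hK0 : 1 ≤ K := by
    have : 1 ≤ K₁ ^ k := Nat.one_le_pow _ _ hK1pos
    omega
  apply hwin N (by omega) (by omega) (by omega) (by omega) (by omega) n hN1
  calc n ≤ (6 * c + 3) * (N + 1) ^ C := hN2.le
    _ ≤ (6 * c + 3) * (2 * N) ^ C := by gcongr; omega
    _ = (6 * c + 3) * 2 ^ C * N ^ C := by rw [mul_pow]; ring
    _ ≤ N * N ^ C := by gcongr; omega
    _ = N ^ (C + 1) := by ring

end Pool.Agent.Q110.GW
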